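import Pool.Agent.V7H30.HD.Des

/-!
# Hadamard and Menon designs whose number of points is not (one less than) a power of two

Let `h_1, …, h_n` be the rows of a Hadamard matrix of order `n`. The triple `p, i, j` closes if the
product `h_p h_i h_j` (entry by entry) is a row or the negative of a row. All triples close exactly for
the matrices of Sylvester, and then `n` is a power of two.

**Theorem.** If `n` is not a power of two then for every `p` at least two ninths of the `n ^ 2` pairs
`(i, j)` are such that `p, i, j` does not close.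

For symmetric designs this says:

* Let `D` be a Hadamard design, with the parameters `(4 m - 1, 2 m - 1, m - 1)`, where `4 m` is not a
  power of two. The line through two points is the intersection of the blocks which contain both; it
  has two or three points, and all lines have three points exactly for the points and hyperplanes of a
  projective space of order two (Dembowski and Wagner). At least `(2 / 9) (4 m) ^ 2` of the
  `(4 m - 1) (4 m - 2)` ordered pairs of points are on a line with two points only, and the same is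
  true for the pairs of blocks in the dual design.
* Let `D` be a Menon design, with the parameters `(4 u ^ 2, 2 u ^ 2 - u, u ^ 2 - u)`, where `u` is not
  a power of two. For every block `A` at least two ninths of the pairs of blocks `(B, C)` are such that
  the symmetric difference of `A`, `B` and `C` is neither a block nor the complement of a block (if this
  happens for no `A, B, C` the design has the symmetric difference property of Kantor, and `u` is a
  power of two).

Proof. Let `N = 2 n` and let `S` be the set of the `N` vectors `± h_p h_i` in the group `G` of all sign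
vectors; let `δ N ^ 2` of the pairs in `S` have a product outside `S`, `δ < 2 / 9`. For `g` in `G` let
`r(g)` be the number of the `s` in `S` with `g s` in `S`. Counting the products of the elements of
`D = {s | s, g s ∈ S}` and those of `S - D` gives `r(g) (N - r(g)) ≤ δ N ^ 2`, so `r(g) < N / 3` or
`r(g) > 2 N / 3`; as `r(g h) ≥ r(g) + r(h) - N`, the `g` with `r(g) > 2 N / 3` form a subgroup `H`.
It contains more than two thirds of `S`. All members of `H` are products of two members of `S`, so
except for `±1` they have sum zero. The orthogonality relations for the characters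
`g ↦ g_c` of `H` show that `|H|` divides `N`, and so `N = |H|` is a power of two.
-/

set_option autoImplicit false

namespace Pool.Agent.Results.MP_3038d1_co.HadamardClosureGapH30

/-- `M` is a Hadamard matrix of order `n`: entries `1` and `-1`, orthogonal rows. -/
def IsHadamard (n : ℕ) (M : Fin n → Fin n → ℤ) : Prop :=
  (∀ i c, M i c = 1 ∨ M i c = -1) ∧ ∀ i j, i ≠ j → ∑ c, M i c * M j c = 0

/-- The product of the rows `p, i, j` is a row or the negative of a row. -/
def Closes {n : ℕ} (M : Fin n → Fin n → ℤ) (p i j : Fin n) : Prop :=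
  ∃ k, (∀ c, M p c * M i c * M j c = M k c) ∨ (∀ c, M p c * M i c * M j c = - M k c)

/-- The sets `B j` are the blocks of a symmetric `(v, k, l)`-design with point set `V`. -/
structure IsSymDesign (v k l : ℕ) {V J : Type} [Fintype V] [Fintype J] (B : J → Finset V) :
    Prop where
  points : Fintype.card V = v
  blocks : Fintype.card J = v
  size : ∀ j, (B j).card = k
  pair : ∀ x y, x ≠ y → {j | x ∈ B j ∧ y ∈ B j}.ncard = l

/-- The line through `x` and `y` (the intersection of the blocks which contain both) has only two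
points. -/
def TwoPointLine {V J : Type} (B : J → Finset V) (x y : V) : Prop :=
  x ≠ y ∧ ∀ z, (∀ j, x ∈ B j → y ∈ B j → z ∈ B j) → z = x ∨ z = y

/-- The intersection of the blocks `i` and `j` is contained in no third block. -/
def TwoBlockLine {V J : Type} (B : J → Finset V) (i j : J) : Prop :=
  i ≠ j ∧ ∀ k, (∀ x, x ∈ B i → x ∈ B j → x ∈ B k) → k = i ∨ k = j

/-- The symmetric difference of the blocks `a, i, j` is a block or the complement of a block. -/
def DiffCloses {V J : Type} (B : J → Finset V) (a i j : J) : Prop :=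
  ∃ k, symmDiff (symmDiff (B a : Set V) (B i)) (B j) = B k ∨
    symmDiff (symmDiff (B a : Set V) (B i)) (B j) = (B k : Set V)ᶜ

open Pool.Agent.V7H30.HD
open Pool.Agent.V7H30.DW (Sym pts thr mem_pts mem_thr)

theorem sym_of {v k l : ℕ} {V J : Type} [Fintype V] [Fintype J] {B : J → Finset V}
    (h : IsSymDesign v k l B) (hk : 2 ≤ k) (hv : 1 ≤ v) (hkv : k * (k - 1) = l * (v - 1)) :
    Sym (fun (x : V) (b : J) => x ∈ B b) v k l := by
  classical
  refine Sym.of_pp h.points h.blocks ?_ ?_ hk hv hkv
  · intro b
    rw [← h.size b]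
    congr 1
    ext x
    rw [mem_pts]
  · intro x y hxy
    have h1 := h.pair x y hxy
    have h2 : {j | x ∈ B j ∧ y ∈ B j} =
        ((thr (fun (x : V) (b : J) => x ∈ B b) x ∩
          thr (fun (x : V) (b : J) => x ∈ B b) y : Finset J) : Set J) := by
      ext b
      simp
    rw [h2, Set.ncard_coe_finset] at h1
    exact h1

theorem result :
    -- Hadamard matrices
    (∀ n : ℕ, (¬ ∃ e, n = 2 ^ e) → ∀ M : Fin n → Fin n → ℤ, IsHadamard n M →
      ∀ p, 2 * n ^ 2 ≤ 9 * {x : Fin n × Fin n | ¬ Closes M p x.1 x.2}.ncard) ∧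
    -- Hadamard designs
    (∀ (m : ℕ) (V J : Type) [Fintype V] [Fintype J] (B : J → Finset V), 1 ≤ m →
      (¬ ∃ e, 4 * m = 2 ^ e) → IsSymDesign (4 * m - 1) (2 * m - 1) (m - 1) B →
        2 * (4 * m) ^ 2 ≤ 9 * {x : V × V | TwoPointLine B x.1 x.2}.ncard ∧
        2 * (4 * m) ^ 2 ≤ 9 * {x : J × J | TwoBlockLine B x.1 x.2}.ncard) ∧
    -- Menon designs
    (∀ (u : ℕ) (V J : Type) [Fintype V] [Fintype J] (B : J → Finset V), 1 ≤ u →
      (¬ ∃ e, u = 2 ^ e) → IsSymDesign (4 * u ^ 2) (2 * u ^ 2 - u) (u ^ 2 - u) B →
        ∀ a, 2 * (4 * u ^ 2) ^ 2 ≤ 9 * {x : J × J | ¬ DiffCloses B a x.1 x.2}.ncard) := by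
  refine ⟨?_, ?_, ?_⟩
  · intro n hn M hM p
    by_contra hlt
    rw [not_le] at hlt
    apply hn
    -- the matrix of units
    have hu : ∀ i c, ∃ e : ℤˣ, (e : ℤ) = M i c := by
      intro i c
      rcases hM.1 i c with h | h
      · exact ⟨1, by rw [h]; rfl⟩
      · exact ⟨-1, by rw [h]; rfl⟩
    choose h hh using hu
    have : Nonempty (Fin n) := ⟨p⟩
    have ho : Orth h := by
      intro i j hij
      rw [← hM.2 i j hij]
      exact Finset.sum_congr rfl fun c _ => by rw [Units.val_mul, hh, hh]
    have h1 := pow_two_of_close ho p rfl (by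
      rw [Fintype.card_fin]
      refine lt_of_le_of_lt (Nat.mul_le_mul_left 9 ?_) hlt
      refine Set.ncard_le_ncard ?_ (Set.toFinite _)
      rintro ⟨i, j⟩ hij hc
      apply hij
      obtain ⟨k, hk⟩ := hc
      refine ⟨k, ?_⟩
      rcases hk with hk | hk
      · left
        intro c
        apply Units.ext
        rw [Units.val_mul, Units.val_mul, hh, hh, hh, hh]
        exact hk c
      · right
        intro c
        apply Units.ext
        rw [Units.val_mul, Units.val_mul, Units.val_neg, hh, hh, hh, hh]
        exact hk c)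
    rwa [Fintype.card_fin] at h1
  · intro m V J _ _ B hm hp hB
    have hm2 : 2 ≤ m := by
      by_contra h
      have : m = 1 := by omega
      subst this
      exact hp ⟨2, rfl⟩
    obtain ⟨q, rfl⟩ : ∃ q, m = q + 2 := ⟨m - 2, by omega⟩
    have hD := sym_of hB (by omega) (by omega) (by
      have e1 : 2 * (q + 2) - 1 = 2 * q + 3 := by omega
      have e2 : 4 * (q + 2) - 1 = 4 * q + 7 := by omega
      have e3 : q + 2 - 1 = q + 1 := by omega
      rw [e1, e2, e3]
      have e4 : 2 * q + 3 - 1 = 2 * q + 2 := by omega
      have e5 : 4 * q + 7 - 1 = 4 * q + 6 := by omega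
      rw [e4, e5]
      ring)
    constructor
    · refine (hadamard_case (by omega) hD hp).trans (Nat.mul_le_mul_left 9 ?_)
      refine Set.ncard_le_ncard ?_ (Set.toFinite _)
      rintro ⟨x, y⟩ ⟨h1, h2⟩
      refine ⟨h1, fun z hz => ?_⟩
      by_contra h3
      push Not at h3
      obtain ⟨b, h4, h5, h6⟩ := h2 z h3.1 h3.2
      exact h6 (hz b h4 h5)
    · refine (hadamard_case (by omega) hD.dual hp).trans (Nat.mul_le_mul_left 9 ?_)
      refine Set.ncard_le_ncard ?_ (Set.toFinite _)
      rintro ⟨x, y⟩ ⟨h1, h2⟩
      refine ⟨h1, fun z hz => ?_⟩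
      by_contra h3
      push Not at h3
      obtain ⟨b, h4, h5, h6⟩ := h2 z h3.1 h3.2
      exact h6 (hz b h4 h5)
  · intro u V J _ _ B hu hp hB a
    have hu2 : 2 ≤ u := by
      by_contra h
      have : u = 1 := by omega
      subst this
      exact hp ⟨0, rfl⟩
    have huu : u ≤ u ^ 2 := by nlinarith
    have hp' : ¬ ∃ e, 4 * u ^ 2 = 2 ^ e := by
      rintro ⟨e, he⟩
      apply hp
      have h1 : u ∣ 2 ^ e := ⟨4 * u, by rw [← he]; ring⟩
      obtain ⟨i, -, hi⟩ := (Nat.dvd_prime_pow Nat.prime_two).1 h1
      exact ⟨i, hi⟩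
    have huu' : 2 * u ≤ u ^ 2 := by nlinarith
    have hD := sym_of hB (by omega) (by omega) (by
      obtain ⟨q, rfl⟩ : ∃ q, u = q + 2 := ⟨u - 2, by omega⟩
      have e1 : 2 * (q + 2) ^ 2 - (q + 2) = 2 * q ^ 2 + 7 * q + 6 := by
        have : 2 * (q + 2) ^ 2 = 2 * q ^ 2 + 7 * q + 6 + (q + 2) := by ring
        omega
      have e2 : (q + 2) ^ 2 - (q + 2) = q ^ 2 + 3 * q + 2 := by
        have : (q + 2) ^ 2 = q ^ 2 + 3 * q + 2 + (q + 2) := by ring
        omega
      have e3 : 4 * (q + 2) ^ 2 - 1 = 4 * q ^ 2 + 16 * q + 15 := by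
        have : 4 * (q + 2) ^ 2 = 4 * q ^ 2 + 16 * q + 15 + 1 := by ring
        omega
      rw [e1, e2, e3]
      have e4 : 2 * q ^ 2 + 7 * q + 6 - 1 = 2 * q ^ 2 + 7 * q + 5 := by omega
      rw [e4]
      ring)
    refine (menon_case hD (by omega) hp' a).trans (Nat.mul_le_mul_left 9 ?_)
    refine Set.ncard_le_ncard ?_ (Set.toFinite _)
    rintro ⟨i, j⟩ hij hc
    apply hij
    obtain ⟨k, hk⟩ := hc
    refine ⟨k, ?_⟩
    have key : ∀ x, (x ∈ symmDiff (symmDiff (B a : Set V) (B i)) (B j)) ↔
        (x ∈ B a ↔ (x ∈ B i ↔ x ∈ B j)) := by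
      intro x
      simp only [Set.mem_symmDiff, Finset.mem_coe]
      tauto
    rcases hk with hk | hk
    · left
      intro x
      rw [← key x, hk]
      rfl
    · right
      intro x
      rw [← key x, hk]
      rfl

end Pool.Agent.Results.MP_3038d1_co.HadamardClosureGapH30
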