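import Pool.Agent.V7H30.FG.Plane

/-!
# Quadrangles of projective planes whose order is not near to a power of two

A quadrangle of a projective plane is a Fano quadrangle if its three diagonal points are collinear. By
the theorem of Gleason (1956) a finite plane in which all quadrangles are Fano quadrangles is
desarguesian, of order `2 ^ m`. This file contains a robust form of the arithmetical part.

**Theorem.** Let `d` be at most the distance of `n` to the nearest power of two.

1. Every Latin square of order `n` has at most `n ^ 2 (n - 1) / 4 - n ^ 2 d / 32000` intercalates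
   (subsquares of order two).
2. Let `D` be a symmetric `(n ^ 2 + n + 1, n + 1, 1)`-design, that is a projective plane of order `n`. For
   every line `l`, every point `Z` of `l` and all further lines `a ≠ b` through `Z` there are at least
   `n ^ 2 d / 8000` quadrangles `X, X', Y, Y'`, where `X, X'` are on `a`, `Y, Y'` are on `b` and `XY'` meets
   `X'Y` on `l`, for which `XY` does not meet `X'Y'` on `l`. (There are `n ^ 2 (n - 1)` quadrangles with
   `X, X'` on `a`, `Y, Y'` on `b` such that `XY'` meets `X'Y` on `l`.)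
3. In the plane the number of the ordered quadrangles which are not Fano quadrangles is at least
   `(n ^ 2 + n + 1) (n + 1) n (n - 1) n ^ 2 d / 8000`; there are
   `(n ^ 2 + n + 1) (n + 1) n ^ 3 (n - 1) ^ 2` ordered quadrangles, so the proportion of those which are
   not Fano quadrangles is at least `d / (8000 (n - 1))`.

So if `n` is not in one of the intervals `[(1 - ε) 2 ^ m, (1 + ε) 2 ^ m]` then at least a constant
proportion `c ε` of all quadrangles is not Fano, for every plane of order `n` and also locally, for every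
line with two further lines through a point of it. The order of magnitude in 1. and 2. is right for
`n = 2 ^ m - 1`: there are Latin squares of this order with `(1 / 4) n ^ 3 - O(n ^ 2)` intercalates.

Proof. By 1. for the Latin square `(X, Y) ↦ XY ∩ l`. Let `F` be the number of the quadruples which do not
close. For a suitable row `o` let `s_x` be the permutation of the symbols which maps the row `o` to the
row `x`; then the sum of the Hamming distances of `s_x s_x` to the identity is at most `F / n`, and
`s_x s_y`, `s_y s_x` have distances with sum at most `3 F`. Replacing the points at which two products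
are compared by points moved by commuting members one obtains that for most pairs `s_x s_y` is near to
a member `s_z`. The permutations which nearly permute the members in this sense, up to small Hamming
distance, form a group; two of them are near to each other or differ almost everywhere, all of them are
near to involutions, so the group of the classes is an elementary abelian 2-group of an order
`2 ^ m`. The members which are near elements are in different classes, and each class which does not
contain a member is responsible for at least `n / 2` pairs `x, y` whose product is not near to a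
member; counting gives `n ^ 2 |n - 2 ^ m| ≤ 8000 F`.
-/

set_option autoImplicit false

namespace Pool.Agent.Results.MP_3038d1_co.RobustGleasonH30

/-- `d` is at most the distance of `n` to the nearest power of two. -/
def FarFromPowers (n d : ℕ) : Prop := ∀ m : ℕ, (d : ℤ) ≤ |(n : ℤ) - 2 ^ m|

/-- `L` is a Latin square. -/
def IsLatin {n : ℕ} (L : Fin n → Fin n → Fin n) : Prop :=
  (∀ x, Function.Injective (L x)) ∧ ∀ y, Function.Injective fun x => L x y

/-- The quadruples `x, x', y, y'` such that the rows `x ≠ x'` and the columns `y, y'` form an intercalate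
(a subsquare of order two); each intercalate gives four quadruples. -/
def Intercalates {n : ℕ} (L : Fin n → Fin n → Fin n) : Set ((Fin n × Fin n) × (Fin n × Fin n)) :=
  {q | q.1.1 ≠ q.1.2 ∧ L q.1.1 q.2.1 = L q.1.2 q.2.2 ∧ L q.1.1 q.2.2 = L q.1.2 q.2.1}

/-- The sets `B j` are the blocks of a symmetric `(v, k, l)`-design with point set `V`. -/
structure IsSymDesign (v k l : ℕ) {V J : Type} [Fintype V] [Fintype J] (B : J → Finset V) :
    Prop where
  points : Fintype.card V = v
  blocks : Fintype.card J = v
  size : ∀ j, (B j).card = k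
  pair : ∀ x y, x ≠ y → {j | x ∈ B j ∧ y ∈ B j}.ncard = l

/-- The three points are in a common block. -/
def Collinear {V J : Type} (B : J → Finset V) (x y z : V) : Prop :=
  ∃ m, x ∈ B m ∧ y ∈ B m ∧ z ∈ B m

/-- The quadruples `(X, X'), (Y, Y')`, where `X, X'` are points of `a`, `Y, Y'` are points of `b`, all of
them different from `Z`, such that the lines `XY'` and `X'Y` meet in a point of `l`, but the lines `XY`
and `X'Y'` do not. -/
def OpenOn {V J : Type} (B : J → Finset V) (Z : V) (l a b : J) : Set ((V × V) × (V × V)) :=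
  {q | (q.1.1 ∈ B a ∧ q.1.1 ≠ Z) ∧ (q.1.2 ∈ B a ∧ q.1.2 ≠ Z) ∧ (q.2.1 ∈ B b ∧ q.2.1 ≠ Z) ∧
    (q.2.2 ∈ B b ∧ q.2.2 ≠ Z) ∧
    (∃ P, P ∈ B l ∧ Collinear B q.1.1 q.2.2 P ∧ Collinear B q.1.2 q.2.1 P) ∧
    ¬ ∃ P, P ∈ B l ∧ Collinear B q.1.1 q.2.1 P ∧ Collinear B q.1.2 q.2.2 P}

/-- `(X, X'), (Y, Y')` is a quadrangle: `X ≠ X'`, `Y ≠ Y'` and no three of the points are collinear. -/
def IsQuadrangle {V J : Type} (B : J → Finset V) (q : (V × V) × (V × V)) : Prop :=
  q.1.1 ≠ q.1.2 ∧ q.2.1 ≠ q.2.2 ∧ ¬ Collinear B q.1.1 q.1.2 q.2.1 ∧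
    ¬ Collinear B q.1.1 q.1.2 q.2.2 ∧ ¬ Collinear B q.2.1 q.2.2 q.1.1 ∧
    ¬ Collinear B q.2.1 q.2.2 q.1.2

/-- The three diagonal points `XX' ∩ YY'`, `XY ∩ X'Y'`, `XY' ∩ X'Y` are on a line. -/
def IsFano {V J : Type} (B : J → Finset V) (q : (V × V) × (V × V)) : Prop :=
  ∃ m, (∃ P, P ∈ B m ∧ Collinear B q.1.1 q.1.2 P ∧ Collinear B q.2.1 q.2.2 P) ∧
    (∃ P, P ∈ B m ∧ Collinear B q.1.1 q.2.1 P ∧ Collinear B q.1.2 q.2.2 P) ∧
    (∃ P, P ∈ B m ∧ Collinear B q.1.1 q.2.2 P ∧ Collinear B q.1.2 q.2.1 P)

open Pool.Agent.V7H30.FG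
open Pool.Agent.V7H30.DW (Sym pts thr mem_pts mem_thr)

theorem sym_of {v k l : ℕ} {V J : Type} [Fintype V] [Fintype J] {B : J → Finset V}
    (h : IsSymDesign v k l B) (hk : 2 ≤ k) (hv : 1 ≤ v) (hkv : k * (k - 1) = l * (v - 1)) :
    Sym (fun (x : V) (b : J) => x ∈ B b) v k l := by
  classical
  refine Sym.of_pp h.points h.blocks ?_ ?_ hk hv hkv
  · intro b
    rw [← h.size b]
    congr 1
    ext x
    rw [mem_pts]
  · intro x y hxy
    have h1 := h.pair x y hxy
    have h2 : {j | x ∈ B j ∧ y ∈ B j} =
        ((thr (fun (x : V) (b : J) => x ∈ B b) x ∩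
          thr (fun (x : V) (b : J) => x ∈ B b) y : Finset J) : Set J) := by
      ext b
      simp
    rw [h2, Set.ncard_coe_finset] at h1
    exact h1

theorem count {n : ℕ} {L : Fin n → Fin n → Fin n} (h : IsLatin L) :
    (Intercalates L).ncard + (Open L).ncard ≤ n ^ 2 * (n - 1) := by
  classical
  have h1 : Disjoint (Intercalates L) (Open L) := by
    rw [Set.disjoint_left]
    rintro q ⟨-, h2, -⟩ ⟨-, h3⟩
    exact h3 h2.symm
  rw [← Set.ncard_union_eq h1 (Set.toFinite _) (Set.toFinite _)]
  have h2 : (Intercalates L ∪ Open L).ncard ≤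
      (((Finset.univ : Finset (Fin n)).offDiag ×ˢ (Finset.univ : Finset (Fin n)) :
        Finset ((Fin n × Fin n) × Fin n)) : Set ((Fin n × Fin n) × Fin n)).ncard := by
    refine Set.ncard_le_ncard_of_injOn (fun q => (q.1, q.2.1)) ?_ ?_ (Set.toFinite _)
    · rintro ⟨⟨x, x'⟩, ⟨y, y'⟩⟩ hq
      rw [Finset.mem_coe, Finset.mem_product, Finset.mem_offDiag]
      refine ⟨⟨Finset.mem_univ _, Finset.mem_univ _, ?_⟩, Finset.mem_univ _⟩
      rcases hq with ⟨h3, -, -⟩ | ⟨h3, h4⟩
      · exact h3
      · intro h0
        have h0' : x = x' := h0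
        subst h0'
        have h5 : L x y' = L x y := h3
        have h6 := h.1 x h5
        subst h6
        exact h4 rfl
    · rintro ⟨⟨x, x'⟩, ⟨y, y'⟩⟩ hq ⟨⟨z, z'⟩, ⟨t, t'⟩⟩ hr he
      simp only [Prod.mk.injEq] at he
      obtain ⟨⟨rfl, rfl⟩, rfl⟩ := he
      have h3 : L x y' = L x' y := by
        rcases hq with ⟨-, -, h3⟩ | ⟨h3, -⟩ <;> exact h3
      have h4 : L x t' = L x' y := by
        rcases hr with ⟨-, -, h3⟩ | ⟨h3, -⟩ <;> exact h3
      have h5 := h.1 x (h3.trans h4.symm)
      rw [h5]
  refine h2.trans ?_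
  rw [Set.ncard_coe_finset, Finset.card_product, Finset.offDiag_card, Finset.card_univ,
    Fintype.card_fin, pow_two, Nat.mul_sub_one, Nat.sub_mul, mul_assoc]

theorem result :
    ∀ n d : ℕ, 1 ≤ n → FarFromPowers n d →
      -- Latin squares
      (∀ L : Fin n → Fin n → Fin n, IsLatin L →
        8000 * (Intercalates L).ncard + n ^ 2 * d ≤ 8000 * (n ^ 2 * (n - 1))) ∧
      -- projective planes
      (∀ (V J : Type) [Fintype V] [Fintype J] (B : J → Finset V),
        IsSymDesign (n ^ 2 + n + 1) (n + 1) 1 B →
          (∀ (Z : V) (l a b : J), Z ∈ B l → Z ∈ B a → Z ∈ B b → a ≠ b → a ≠ l → b ≠ l →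
            n ^ 2 * d ≤ 8000 * (OpenOn B Z l a b).ncard) ∧
          (n ^ 2 + n + 1) * ((n + 1) * (n * (n - 1) * (n ^ 2 * d))) ≤
            8000 * {q : (V × V) × (V × V) | IsQuadrangle B q ∧ ¬ IsFano B q}.ncard) := by
  intro n d hn hd
  refine ⟨?_, ?_⟩
  · intro L hL
    have h1 : Latin L n :=
      { cA := Fintype.card_fin n
        cB := Fintype.card_fin n
        cL := Fintype.card_fin n
        row := hL.1
        col := hL.2 }
    obtain ⟨m, hm⟩ := h1.main hn
    have h2 := count hL
    have h3 : (n : ℤ) ^ 2 * d ≤ n ^ 2 * |(n : ℤ) - 2 ^ m| :=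
      mul_le_mul_of_nonneg_left (hd m) (sq_nonneg _)
    have h4 : ((n ^ 2 * d : ℕ) : ℤ) ≤ ((8000 * (Open L).ncard : ℕ) : ℤ) := by
      push_cast
      linarith
    have h5 : n ^ 2 * d ≤ 8000 * (Open L).ncard := by exact_mod_cast h4
    omega
  · intro V J _ _ B hB
    have hS := sym_of hB (by omega) (by omega) (by
      rw [Nat.add_sub_cancel, Nat.add_sub_cancel]
      ring)
    exact ⟨fun Z l a b h1 h2 h3 h4 h5 h6 => Frame.main hS ⟨h1, h2, h3, h4, h5, h6⟩ hn hd,
      main hS hn hd⟩

end Pool.Agent.Results.MP_3038d1_co.RobustGleasonH30
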