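import Pool.Agent.H114R2.Design
import Pool.Agent.Y341.Had.Orders
import Pool.Agent.Y342.ION.Final
import Pool.Agent.N447.Had.N523
import Pool.Agent.N447.Had.N571
import Pool.Agent.N447.Had.N573
import Pool.Agent.N447.Had.N659
import Pool.Agent.V7H72.Had.N1123

/-!
# New symmetric designs from a Hadamard matrix of order 4492

A Hadamard matrix of order `4492 = 4 * 1123` is constructed, an order for which none was known: a
Goethals-Seidel array over `Z_1123` with four sign functions which are constant on the orbits of the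
multipliers of order `33` (there are `34` nonzero orbits), with row sums `1, 1, 1, 67` and total
periodic autocorrelation zero. The four functions were found by a search among the `2 ^ 136`
candidates: lists of functions with nearly constant power spectrum, and a matching of sums of two
spectra.

Together with the orders `2092, 2284, 2292, 2636` of the starting files of the Hadamard conjecture
(for which no designs are in the starting files) this gives, for `m = 1123, 523, 571, 573, 659` and
all multipliers `n` as in `GoodFactor`, the symmetric Hadamard designs, the symmetric designs with Menon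
parameters, and, if `4 m n + 1` is a prime power, the symmetric designs of Ionin and Kharaghani for all
powers `(4 m n + 1) ^ 2 ^ a`. As `4493 = 4 * 1123 + 1` and `2293 = 4 * 573 + 1` are primes, there are two
new families with `n = 1`.
-/

set_option autoImplicit false

namespace Pool.Agent.Results.MP_3038d1_co.Seed4492DesignsH72

/-- `B` lists the `v` blocks of a symmetric `(v, k, l)`-design on the point set `Fin v`:
`k < v`, `0 < l`, every block has `k` points, every point is in `k` blocks, any two distinct points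
are in exactly `l` common blocks (and any two distinct blocks have exactly `l` common points). -/
def IsSymmetricDesign (v k l : ℕ) (B : Fin v → Finset (Fin v)) : Prop :=
  k < v ∧ 0 < l ∧ (∀ i, (B i).card = k) ∧
  (∀ x, (Finset.univ.filter (fun i => x ∈ B i)).card = k) ∧
  (∀ x y, x ≠ y → (Finset.univ.filter (fun i => x ∈ B i ∧ y ∈ B i)).card = l) ∧
  (∀ i j, i ≠ j → (B i ∩ B j).card = l)

/-- `n` is one, or `(p + 1) / 2` for a prime `p = 3` modulo `4`, or `q + 1` for a prime power
`q = 1` modulo `4`, or half the order of a Hadamard matrix -/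
def GoodFactor (n : ℕ) : Prop :=
  n = 1 ∨ (∃ p : ℕ, p.Prime ∧ p % 4 = 3 ∧ 2 * n = p + 1) ∨
    (∃ q : ℕ, IsPrimePow q ∧ q % 4 = 1 ∧ n = q + 1) ∨
    ∃ H : Matrix (Fin (2 * n)) (Fin (2 * n)) ℤ, (∀ i j, H i j = 1 ∨ H i j = -1) ∧
      H * H.transpose = ((2 * n : ℕ) : ℤ) • 1

/-- The first part: Hadamard designs, designs with Menon parameters and the designs of Ionin and
Kharaghani for the seeds `m` and the multipliers `n`. The second part: the primes `4493` and `2293`. -/
theorem result :
    (∀ m ∈ ([1123, 523, 571, 573, 659] : List ℕ), ∀ n : ℕ, 0 < n → GoodFactor n →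
      (∃ B, IsSymmetricDesign (4 * (m * n) - 1) (2 * (m * n) - 1) (m * n - 1) B) ∧
      (∃ B, IsSymmetricDesign (4 * (2 * (m * n)) ^ 2) (2 * (2 * (m * n)) ^ 2 - 2 * (m * n))
        ((2 * (m * n)) ^ 2 - 2 * (m * n)) B) ∧
      (IsPrimePow (4 * (m * n) + 1) → ∀ a j h : ℕ, (4 * (m * n) + 1) ^ 2 ^ a = 2 * h + 1 →
        ∃ B, IsSymmetricDesign (4 * h ^ 2 * ∑ i ∈ Finset.range (j + 1), (2 * h + 1) ^ (2 * i))
          ((2 * h + 1) ^ (2 * j) * (2 * h ^ 2 + h)) ((2 * h + 1) ^ (2 * j) * (h ^ 2 + h)) B)) ∧
    (∀ q ∈ ([4493, 2293] : List ℕ), q.Prime ∧ ∀ a j h : ℕ, q ^ 2 ^ a = 2 * h + 1 →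
        ∃ B, IsSymmetricDesign (4 * h ^ 2 * ∑ i ∈ Finset.range (j + 1), (2 * h + 1) ^ (2 * i))
          ((2 * h + 1) ^ (2 * j) * (2 * h ^ 2 + h)) ((2 * h + 1) ^ (2 * j) * (h ^ 2 + h)) B) := by
  have main : ∀ q : ℕ, IsPrimePow q → q % 4 = 1 → Pool.Agent.TH394.HadOrder (q - 1) →
      ∀ a j h : ℕ, q ^ 2 ^ a = 2 * h + 1 →
        ∃ B, IsSymmetricDesign (4 * h ^ 2 * ∑ i ∈ Finset.range (j + 1), (2 * h + 1) ^ (2 * i))
          ((2 * h + 1) ^ (2 * j) * (2 * h ^ 2 + h)) ((2 * h + 1) ^ (2 * j) * (h ^ 2 + h)) B := by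
    intro q hq h4 hH a j h hh
    have h1 := (Pool.Agent.Y341.Had.tower_pow hq h4 a).1
    have h2 := Pool.Agent.Y341.Had.tower hq h4 hH a
    rw [hh] at h1 h2
    exact Pool.Agent.Y342.ION.ionin h1 h2 j
  have key : ∀ m : ℕ, 1 < m → Pool.Agent.TH394.HadOrder (4 * m) →
      (∃ B, IsSymmetricDesign (4 * m - 1) (2 * m - 1) (m - 1) B) ∧
      ∃ B, IsSymmetricDesign (4 * (2 * m) ^ 2) (2 * (2 * m) ^ 2 - 2 * m)
        ((2 * m) ^ 2 - 2 * m) B := by
    intro m hm h
    refine ⟨Pool.Agent.H114R2.hadDesign_of_had hm h, Pool.Agent.H114R2.menon_of_had (by omega) ?_⟩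
    have e : 2 * (2 * m) = 4 * m := by ring
    rw [e]
    exact h
  have base : ∀ m ∈ ([1123, 523, 571, 573, 659] : List ℕ), Pool.Agent.TH394.HadOrder (4 * m) := by
    intro m hm
    simp only [List.mem_cons, List.not_mem_nil, or_false] at hm
    rcases hm with rfl | rfl | rfl | rfl | rfl
    · exact Pool.Agent.V7H72.Had.N1123.had
    · exact Pool.Agent.N447.Had.N523.had
    · exact Pool.Agent.N447.Had.N571.had
    · exact Pool.Agent.N447.Had.N573.had
    · exact Pool.Agent.N447.Had.N659.had
  refine ⟨?_, ?_⟩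
  · intro m hm n hn0 hn
    have hm1 : 1 < m := by
      simp only [List.mem_cons, List.not_mem_nil, or_false] at hm
      omega
    have h1 : 1 < m * n := by
      calc 1 < m := hm1
        _ ≤ m * n := Nat.le_mul_of_pos_right m hn0
    have hH : Pool.Agent.TH394.HadOrder (4 * (m * n)) := Pool.Agent.Y341.Had.mult (base m hm) hn
    have hk := key (m * n) h1 hH
    exact ⟨hk.1, hk.2, fun hq => main _ hq (by omega) hH⟩
  · intro q hq
    simp only [List.mem_cons, List.not_mem_nil, or_false] at hq
    rcases hq with rfl | rfl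
    · have hp : Nat.Prime 4493 := by norm_num
      exact ⟨hp, main 4493 hp.isPrimePow (by norm_num) Pool.Agent.V7H72.Had.N1123.had⟩
    · have hp : Nat.Prime 2293 := by norm_num
      exact ⟨hp, main 2293 hp.isPrimePow (by norm_num) Pool.Agent.N447.Had.N573.had⟩

end Pool.Agent.Results.MP_3038d1_co.Seed4492DesignsH72
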