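import Pool.Agent.V7H30.DG.Out

/-!
# Symmetric designs with the parameters of a projective space: no short lines or almost only short
lines

Let `D` be a symmetric design with the parameters of the projective space of dimension `d ≥ 3` and
order `n ≥ 3`, so with `v = 1 + n + ⋯ + n ^ d` points, and let `λ = 1 + n + ⋯ + n ^ (d - 2)` be the
number of blocks through two points. The line `xy` of two points is the intersection of the blocks
which contain both. It has at most `n + 1` points; the pair is *short* if it has at most `n`. By the
theorem of Dembowski and Wagner there are no short pairs if and only if `D` consists of the points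
and hyperplanes of a projective space; then `n` is a prime power.

**Theorem.** Either there is no short pair (and `n` is a prime power), or

* fewer than `v / 2` and at most `√(5 n) (n + 1) λ` points are in no short pair; this is a
  proportion of `O(1 / √n)` of the points, uniformly in `d`,
* the same bounds hold for the number of good blocks (a block `E` is good if `E ∩ F` is contained in
  `n + 1` blocks for every block `F ≠ E`) and for the number of blocks which contain no short pair
  (such blocks are good),
* every point which is in a short pair is in at least `n (n + 2)` short pairs.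

So the number of ordered short pairs is `0` or at least `(1 - O(1 / √n)) n ^ (d + 2)`, and if `n` is
not a prime power then almost all points and almost all blocks are on, respectively contain, short
lines. The order `n ^ (d + 2)` is correct: exchange two lines of a plane of the projective space over
a finite field in the traces of all hyperplanes which do not contain the plane; in this design every
point outside the plane is in exactly `2 n ^ 2` short pairs.

Proof. Call a point perfect if it is in no short pair. A perfect point `p` sees a block `E` which does
not contain it as a symmetric design `D(p, E)` of dimension `d - 1`: the traces on `E` of the blocks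
through `p`. Let `{u, w}` be a short pair in `E`, and assume that there are no short pairs in `D(p, E)`.
Then there is a block `F` through `u` and `w` which does not contain the line of `D(p, E)` through `u`
and `w`, and the trace `T` of `F` has the size of a hyperplane but is none. Every perfect point of `E`
outside `F` is a nucleus of `T`: each line through it meets `T` exactly once. In a plane of order `n`,
which need not be desarguesian, a set of `n + 1` points which is not a line has at most
`min (n (n - 1) / 2, 2 √n (n + 1))` nuclei: the first bound follows from the lines through two points of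
`T`, the second from counting the tangents, if there are many secants, and otherwise `T` has many
points on one line and few outside. In general one counts in the hyperplanes through a line that is
neither contained in `T` nor meets `T` in at most one point. The perfect points in `F` are vertices of
`T` as a cone, and they are in two traces. So `E` contains few perfect points, and this suffices, as
each perfect point is in a constant number of blocks through `u` and `w`. Then induction on `d`.

For the third part let `p` be a point which is in a short pair. For a block `E` which does not contain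
`p` call a point `u` of `E` irregular if it is not in the same number of traces of blocks through `p`
with all the other points of `E`. By a variance argument there are no irregular points in `E` or at
least `n + 2`, and they are partners of `p` in short pairs; and there is a block `E` with irregular
points. The numbers of partners in `E` and altogether have ratio `n`.
-/

set_option autoImplicit false

namespace Pool.Agent.Results.MP_3038d1_co.ShortLinesGapH30

/-- The blocks `B j` form a symmetric design on the points `V` with the parameters of the projective
space of dimension `d` and order `n`. -/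
structure IsPGDesign (n d : ℕ) {V J : Type} [Fintype V] [Fintype J] (B : J → Finset V) : Prop where
  points : Fintype.card V = ∑ i ∈ Finset.range (d + 1), n ^ i
  blocks : Fintype.card J = ∑ i ∈ Finset.range (d + 1), n ^ i
  size : ∀ j, (B j).card = ∑ i ∈ Finset.range d, n ^ i
  pair : ∀ x y, x ≠ y → {j | x ∈ B j ∧ y ∈ B j}.ncard = ∑ i ∈ Finset.range (d - 1), n ^ i

/-- The line through `x` and `y`: the intersection of the blocks which contain both. -/
def line {V J : Type} (B : J → Finset V) (x y : V) : Set V := {z | ∀ j, x ∈ B j → y ∈ B j → z ∈ B j}

/-- The line through the two points `x` and `y` has at most `n` points. -/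
def Short (n : ℕ) {V J : Type} (B : J → Finset V) (x y : V) : Prop :=
  x ≠ y ∧ (line B x y).ncard ≤ n

/-- The intersection of the block `i` with any other block is contained in `n + 1` blocks. -/
def GoodBlock (n : ℕ) {V J : Type} (B : J → Finset V) (i : J) : Prop :=
  ∀ j, j ≠ i → {h | ∀ x, x ∈ B i → x ∈ B j → x ∈ B h}.ncard = n + 1

/-- Fewer than half of the points, and at most `√(5 n) (n + 1) λ`. -/
def Few (n d m : ℕ) : Prop :=
  2 * m < ∑ i ∈ Finset.range (d + 1), n ^ i ∧
    m ^ 2 ≤ 5 * n * (n + 1) ^ 2 * (∑ i ∈ Finset.range (d - 1), n ^ i) ^ 2

open Pool.Agent.V7H30.DG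
open Pool.Agent.V7H30.DW (Sym pts thr mem_pts mem_thr)

theorem result {V J : Type} [Fintype V] [Fintype J] {n d : ℕ} (hn : 3 ≤ n) (hd : 3 ≤ d)
    (B : J → Finset V) (hB : IsPGDesign n d B) :
    (IsPrimePow n ∧ ∀ x y, x ≠ y → (line B x y).ncard = n + 1) ∨
    (Few n d {x | ∀ y, ¬ Short n B x y}.ncard ∧
      Few n d {i | GoodBlock n B i}.ncard ∧
      Few n d {i | ∀ x ∈ B i, ∀ y ∈ B i, ¬ Short n B x y}.ncard ∧
      ∀ x y, Short n B x y → n * (n + 2) ≤ {z | Short n B x z}.ncard) := by
  classical
  obtain ⟨j, rfl⟩ : ∃ j, d = j + 3 := ⟨d - 3, by omega⟩
  have hn1 : 1 ≤ n := by omega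
  have hfew : ∀ m, 2 * m < n * (n * g n (j + 2) + 1) + 1 ∧
      m ^ 2 ≤ 5 * n * (n + 1) ^ 2 * (g n (j + 2)) ^ 2 → Few n (j + 3) m := by
    intro m hm
    rw [g_eq] at hm
    refine ⟨?_, hm.2⟩
    have h1 := hm.1
    rw [← g_eq] at h1 ⊢
    exact h1
  set I : V → J → Prop := fun x b => x ∈ B b with hI
  -- the design
  have hD : Des I n (g n (j + 2)) := by
    refine Sym.of_pp ?_ ?_ ?_ ?_ ?_ ?_ ?_
    · rw [hB.points, ← g_eq]
      rfl
    · rw [hB.blocks, ← g_eq]
      rfl
    · intro b
      have h1 : pts I b = B b := by
        ext x
        rw [mem_pts]
      rw [h1, hB.size, ← g_eq]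
      rfl
    · intro x y hxy
      have h1 := hB.pair x y hxy
      have h2 : {j | x ∈ B j ∧ y ∈ B j} = (thr I x ∩ thr I y : Set J) := by
        ext b
        simp [hI]
      have h3 : (thr I x ∩ thr I y : Set J) = ((thr I x ∩ thr I y : Finset J) : Set J) := by
        simp
      rw [h2, h3, Set.ncard_coe_finset, show j + 3 - 1 = j + 2 from rfl, ← g_eq] at h1
      exact (card_inter_inst _ _ _ _).trans h1
    · have h1 : 1 ≤ g n (j + 2) := g_pos n (j + 1)
      nlinarith
    · omega
    · rw [Nat.add_sub_cancel, Nat.add_sub_cancel]
      ring
  have hline : ∀ x y, (line B x y).ncard = (Pool.Agent.V7H30.DG.line I x y).card := by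
    intro x y
    rw [← Set.ncard_coe_finset]
    congr 1
    ext z
    simp [line, mem_line, hI]
  have hgood : ∀ x y, Good I n x y ↔ x ≠ y ∧ ¬ Short n B x y := by
    intro x y
    constructor
    · rintro ⟨h1, h2⟩
      refine ⟨h1, fun h3 => ?_⟩
      have h4 := h3.2
      rw [hline, h2] at h4
      omega
    · rintro ⟨h1, h2⟩
      refine ⟨h1, ?_⟩
      have h3 := card_line_le hD hn1 h1
      by_contra h4
      apply h2
      refine ⟨h1, ?_⟩
      rw [hline]
      omega
  rcases dichotomy hn hD with ⟨hp, hall⟩ | ⟨h1, h2⟩
  · left
    refine ⟨hp, fun x y hxy => ?_⟩
    rw [hline]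
    exact (hall x y hxy).2
  · right
    have hgb : ∀ i, Perf (flip I) n i ↔ GoodBlock n B i := by
      intro i
      have h3 : ∀ k, {h | ∀ x, x ∈ B i → x ∈ B k → x ∈ B h}.ncard =
          (Pool.Agent.V7H30.DG.line (flip I) i k).card := by
        intro k
        rw [← Set.ncard_coe_finset]
        congr 1
        ext b
        simp [mem_line, hI, flip]
      constructor
      · intro h4 k hk
        rw [h3]
        exact (h4 k hk.symm).2
      · intro h4 k hk
        refine ⟨hk, ?_⟩
        rw [← h3]
        exact h4 k hk.symm
    have e1 : {x | ∀ y, ¬ Short n B x y} = (perfs I n : Set V) := by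
      ext x
      simp only [Set.mem_ofPred_eq, Finset.mem_coe, mem_perfs]
      constructor
      · intro h3 y hy
        exact (hgood x y).2 ⟨hy, h3 y⟩
      · intro h3 y hy
        exact ((hgood x y).1 (h3 y hy.1)).2 hy
    have e2 : {i | GoodBlock n B i} = (perfs (flip I) n : Set J) := by
      ext i
      simp only [Set.mem_ofPred_eq, Finset.mem_coe, mem_perfs]
      exact (hgb i).symm
    have e3 : {i | ∀ x ∈ B i, ∀ y ∈ B i, ¬ Short n B x y} ⊆ (perfs (flip I) n : Set J) := by
      intro i hi
      simp only [Set.mem_ofPred_eq] at hi
      rw [Finset.mem_coe, mem_perfs]
      intro k hk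
      exact good_flip hD hn1 hk fun x y hx hy hxy => (hgood x y).2 ⟨hxy, hi x hx y hy⟩
    refine ⟨?_, ?_, ?_, ?_⟩
    · rw [e1, Set.ncard_coe_finset]
      exact hfew _ h1
    · rw [e2, Set.ncard_coe_finset]
      exact hfew _ h2
    · have h4 := Set.ncard_le_ncard e3 (Set.toFinite _)
      rw [Set.ncard_coe_finset] at h4
      have h5 := hfew _ h2
      exact ⟨lt_of_le_of_lt (Nat.mul_le_mul_left _ h4) h5.1,
        le_trans (Nat.pow_le_pow_left h4 2) h5.2⟩
    · intro x y hxy
      have h3 := card_bad (r := g n (j + 1)) hD hn1 hxy.1 fun hc => ((hgood x y).1 hc).2 hxy
      refine h3.trans (le_of_eq ?_)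
      rw [← Set.ncard_coe_finset]
      congr 1
      ext z
      simp only [Finset.coe_filter, Finset.mem_univ, true_and, Set.mem_ofPred_eq]
      constructor
      · rintro ⟨h4, h5⟩
        by_contra h6
        exact h5 ((hgood x z).2 ⟨h4, h6⟩)
      · intro h4
        exact ⟨h4.1, fun hc => ((hgood x z).1 hc).2 h4⟩

end Pool.Agent.Results.MP_3038d1_co.ShortLinesGapH30
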